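import Pool.Agent.H23R2.Lin
import Mathlib.RingTheory.Filtration

/-!
# Finitely generated modules over finitely generated commutative rings are separated
-/

set_option autoImplicit false

namespace Pool.Agent.Y35.KC

open Pool.Agent.H23R2

universe u v

/-- An element of a finitely generated module over a finitely generated commutative ring which is
divisible by all powers of the prime `q`, in a maximal ideal `m`, is fixed by an element of `m`. -/
lemma fixed_of_div (S : Type u) [CommRing S] [Algebra.FiniteType ℤ S] (M : Type v)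
    [AddCommGroup M] [Module S M] [Module.Finite S M] (x : M) (m : Ideal S) (q : ℕ)
    (hqm : (q : S) ∈ m) (h : ∀ i : ℕ, ∃ y : M, x = q ^ i • y) : ∃ r ∈ m, r • x = x := by
  have : IsNoetherianRing S := Algebra.FiniteType.isNoetherianRing ℤ S
  have h1 : x ∈ (⨅ i : ℕ, m ^ i • ⊤ : Submodule S M) := by
    rw [Submodule.mem_iInf]
    intro i
    obtain ⟨y, hy⟩ := h i
    rw [hy]
    have h2 : (q ^ i : ℕ) • y = ((q : S) ^ i) • y := by
      rw [← Nat.cast_pow, Nat.cast_smul_eq_nsmul]
    rw [h2]
    exact Submodule.smul_mem_smul (Ideal.pow_mem_pow hqm i) trivial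
  obtain ⟨r, hr⟩ := (m.mem_iInf_smul_pow_eq_bot_iff x).mp h1
  exact ⟨r, r.2, hr⟩

/-- In a finitely generated module over a finitely generated commutative ring `S`, no element other
than `0` is divisible by all powers of all primes which are no units of `S`. -/
theorem zero_of_div (S : Type u) [CommRing S] [Algebra.FiniteType ℤ S] (M : Type v)
    [AddCommGroup M] [Module S M] [Module.Finite S M] (x : M)
    (h : ∀ p : ℕ, p.Prime → ¬ IsUnit (p : S) → ∀ m : ℕ, ∃ y : M, x = p ^ m • y) : x = 0 := by
  by_contra hx
  have hne : Ideal.span {a : S | a • x = 0} ≠ ⊤ := by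
    intro h1
    apply hx
    have h2 : (1 : S) ∈ LinearMap.ker (LinearMap.toSpanSingleton S M x) := by
      have h3 : Ideal.span {a : S | a • x = 0} ≤ LinearMap.ker (LinearMap.toSpanSingleton S M x) := by
        rw [Ideal.span, Submodule.span_le]
        intro a ha
        simpa [LinearMap.mem_ker] using ha
      apply h3
      rw [h1]
      trivial
    simpa [LinearMap.mem_ker] using h2
  obtain ⟨m, hm, hle⟩ := Ideal.exists_le_maximal _ hne
  obtain ⟨q, hq, hqm, _⟩ := residue_finite S m
  have hqu : ¬ IsUnit (q : S) := fun hu => hm.ne_top (Ideal.eq_top_of_isUnit_mem m hqm hu)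
  obtain ⟨r, hrm, hr⟩ := fixed_of_div S M x m q hqm (h q hq hqu)
  have h3 : (1 : S) - r ∈ m := hle (Ideal.subset_span (by
    show (1 - (r : S)) • x = 0
    rw [sub_smul, one_smul, hr, sub_self]))
  have h4 : (1 : S) ∈ m := by
    have := m.add_mem h3 hrm
    simpa using this
  exact hm.ne_top ((Ideal.eq_top_iff_one m).2 h4)

/-- In a torsion-free finitely generated module over a finitely generated commutative ring `S`, no
element other than `0` is divisible by all powers of a prime which is no unit of `S`. -/
theorem zero_of_one (S : Type u) [CommRing S] [Algebra.FiniteType ℤ S] (M : Type v)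
    [AddCommGroup M] [Module S M] [Module.Finite S M] (x : M)
    (htf : ∀ (a : S) (y : M), a • y = 0 → a = 0 ∨ y = 0) (q : ℕ) (hq : ¬ IsUnit (q : S))
    (h : ∀ i : ℕ, ∃ y : M, x = q ^ i • y) : x = 0 := by
  obtain ⟨m, hm, hqm⟩ := exists_max_ideal_of_mem_nonunits hq
  obtain ⟨r, hrm, hr⟩ := fixed_of_div S M x m q hqm h
  rcases htf (1 - r) x (by rw [sub_smul, one_smul, hr, sub_self]) with h1 | h1
  · exfalso
    apply hm.ne_top
    rw [Ideal.eq_top_iff_one, sub_eq_zero.1 h1]
    exact hrm
  · exact h1

end Pool.Agent.Y35.KC
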