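import Pool.Agent.W647.HX2
import Pool.Agent.Y35.KC.Krull

/-!
# Higher Chern characters of idempotent matrices over group rings of commutative rings
-/

set_option autoImplicit false
set_option linter.unusedSectionVars false

namespace Pool.Agent.Y35.KC

open Pool.Agent.W647.HV1 Pool.Agent.W647.HW1 Pool.Agent.W647.HX1

universe u1 u2 u3 u4

variable {G : Type u1} [Group G] {R : Type u2} [CommRing R] {M : Type u3} [AddCommGroup M]
  [Module R M] {d : Type u4} [Fintype d] [DecidableEq d]

/-- The values of `c` lie in a finitely generated module over a finitely generated subring of `R`. -/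
def FGValues (R : Type u2) [CommRing R] {M : Type u3} [AddCommGroup M] [Module R M] {X : Type*}
    (c : X → M) : Prop :=
  ∃ (s : Finset R) (F : Finset M),
    ∀ v, c v ∈ Submodule.span (Algebra.adjoin ℤ (s : Set R)) (F : Set M)

lemma span_mono_ring {s s' : Finset R} (h : s ⊆ s') (F : Set M) {x : M}
    (hx : x ∈ Submodule.span (Algebra.adjoin ℤ (s : Set R)) F) :
    x ∈ Submodule.span (Algebra.adjoin ℤ (s' : Set R)) F := by
  induction hx using Submodule.span_induction with
  | mem x hx => exact Submodule.subset_span hx
  | zero => exact Submodule.zero_mem _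
  | add x y _ _ hx hy => exact Submodule.add_mem _ hx hy
  | smul a x _ hx =>
    have h1 : (a : R) ∈ Algebra.adjoin ℤ (s' : Set R) :=
      Algebra.adjoin_mono (by exact_mod_cast h) a.2
    exact Submodule.smul_mem _ (⟨(a : R), h1⟩ : Algebra.adjoin ℤ (s' : Set R)) hx

open Classical in
/-- the coefficients of a matrix over the group ring -/
noncomputable def coefs (e : Matrix d d (MonoidAlgebra R G)) : Finset R :=
  Finset.univ.biUnion fun i => Finset.univ.biUnion fun j =>
    (e i j).coeff.support.image fun g => (e i j).coeff g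

lemma coeff_mem (e : Matrix d d (MonoidAlgebra R G)) {s : Finset R} (h : coefs e ⊆ s) (i j : d)
    (g : G) : (e i j).coeff g ∈ Algebra.adjoin ℤ (s : Set R) := by
  classical
  by_cases h0 : (e i j).coeff g = 0
  · rw [h0]
    exact zero_mem _
  · apply Algebra.subset_adjoin
    apply h
    simp only [coefs, Finset.mem_biUnion, Finset.mem_univ, true_and, Finset.mem_image,
      Finsupp.mem_support_iff]
    exact ⟨i, j, g, h0, rfl⟩

/-- lifting a matrix to a subring which contains the coefficients -/
lemma lift_matrix (A : Subalgebra ℤ R) (e : Matrix d d (MonoidAlgebra R G))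
    (h : ∀ i j g, (e i j).coeff g ∈ A) :
    ∃ e0 : Matrix d d (MonoidAlgebra A G),
      e0.map (MonoidAlgebra.mapRingHom G (A.val : A →+* R)) = e := by
  have h1 : ∀ i j, ∃ y : MonoidAlgebra A G,
      MonoidAlgebra.mapRingHom G (A.val : A →+* R) y = e i j :=
    fun i j => Pool.Agent.W647.K1.exists_lift A (e i j) (h i j)
  choose f hf using h1
  exact ⟨Matrix.of f, by ext1 i j; exact hf i j⟩

lemma map_inj (A : Subalgebra ℤ R) {e e' : Matrix d d (MonoidAlgebra A G)}
    (h : e.map (MonoidAlgebra.mapRingHom G (A.val : A →+* R)) =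
      e'.map (MonoidAlgebra.mapRingHom G (A.val : A →+* R))) : e = e' := by
  ext1 i j
  exact Pool.Agent.W647.K1.mp_inj (A.val : A →+* R) Subtype.val_injective
    (congrFun (congrFun h i) j)

open Classical in
/-- the even number of the idempotent matrix `e` and the cochain `c` at the class of `g` -/
noncomputable def evNum (g : G) (t : G → G) {n : ℕ} (c : (Fin (n + 1) → G) → M)
    (e : Matrix d d (MonoidAlgebra R G)) : M :=
  ∑ᶠ w : Fin (n + 1) → G, if IsConj (List.ofFn w).prod g then
    (List.ofFn fun i => e.map fun x => x.coeff (w i)).prod.trace •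
      (c fun i => t (List.ofFn w).prod * ((List.ofFn w).take i).prod) else 0

lemma evNum_eq (g : G) (t : G → G) {n : ℕ} (c : (Fin (n + 1) → G) → M)
    (e : Matrix d d (MonoidAlgebra R G)) :
    evNum g t c e = evTau (smulAddHom R M) g t c (cm e) := rfl

lemma evTau_map {S : Type*} [CommRing S] {M0 : Type*} [AddCommGroup M0] [Module S M0]
    (φ : S →+* R) (ψ : M0 →+ M) (hψ : Function.Injective ψ)
    (hs : ∀ (a : S) (m : M0), ψ (a • m) = φ a • ψ m)
    (g : G) (t : G → G) {n : ℕ} (c : (Fin (n + 1) → G) → M0) (f : G → Matrix d d S) :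
    ψ (evTau (smulAddHom S M0) g t c f) =
      evTau (smulAddHom R M) g t (fun v => ψ (c v)) (fun s => (f s).map φ) := by
  rw [evTau, evTau, AddMonoidHom.map_finsum_of_injective ψ hψ]
  refine finsum_congr fun w => ?_
  split_ifs
  · rw [smulAddHom_apply, smulAddHom_apply, hs]
    congr 1
    have h2 : (List.ofFn fun i => (f (w i)).map φ).prod =
        φ.mapMatrix (List.ofFn fun i => f (w i)).prod := by
      rw [map_list_prod, List.map_ofFn]
      rfl
    rw [h2]
    exact (AddMonoidHom.map_trace φ.toAddMonoidHom _)
  · exact map_zero _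

/-- **The higher Chern numbers at elements of finite order vanish.** -/
theorem ev_zero (e : Matrix d d (MonoidAlgebra R G)) (he : e * e = e) {g : G}
    (hg : IsOfFinOrder g) {t : G → G} (ht : ∀ y, IsConj y g → t y * y * (t y)⁻¹ = g) {k : ℕ}
    (hk : k ≠ 0) {c : (Fin (2 * k + 1) → G) → M} (hc : IsClassCoc g c) (hv : FGValues R c) :
    (2 * k).descFactorial k • evNum g t c e = 0 := by
  classical
  obtain ⟨s, F, hF⟩ := hv
  set s' : Finset R := s ∪ coefs e with hs'
  set S : Subalgebra ℤ R := Algebra.adjoin ℤ (s' : Set R) with hS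
  have hft : Algebra.FiniteType ℤ S := by
    rw [← Subalgebra.fg_iff_finiteType]
    exact ⟨s', rfl⟩
  obtain ⟨e0, he0⟩ := lift_matrix S e (fun i j g => coeff_mem e (Finset.subset_union_right) i j g)
  have hid : e0 * e0 = e0 := by
    apply map_inj S
    rw [Matrix.map_mul, he0, he]
  set M0 : Submodule S M := Submodule.span S (F : Set M) with hM0
  have hc0 : ∀ v, c v ∈ M0 := fun v => span_mono_ring Finset.subset_union_left _ (hF v)
  have hfin : Module.Finite S M0 := Module.Finite.span_of_finite S (Finset.finite_toSet F)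
  let c0 : (Fin (2 * k + 1) → G) → M0 := fun v => ⟨c v, hc0 v⟩
  have hcc : IsClassCoc g c0 :=
    { perm := fun v σ => Subtype.ext (by
        rw [AddSubgroupClass.coe_zsmul]
        exact hc.perm v σ)
      rep := fun v i j hij h => Subtype.ext (hc.rep v i j hij h)
      left := fun z hz v => Subtype.ext (hc.left z hz v)
      single := fun v i => Subtype.ext (hc.single v i)
      closed := fun v => Subtype.ext (by
        rw [AddSubmonoidClass.coe_finsetSum]
        exact hc.closed v) }
  have key : (2 * k).descFactorial k • evTau (smulAddHom S M0) g t c0 (cm e0) = 0 := by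
    apply zero_of_div S M0
    intro p hp _ m
    exact evTau_dvd (smulAddHom S M0) (fun x y => by rw [mul_comm]) hg ht hk hcc e0 hid (p ^ m)
      (pow_ne_zero _ hp.ne_zero)
  have h2 := congrArg (M0.subtype.toAddMonoidHom) key
  rw [map_nsmul, evTau_map (S.val : S →+* R) M0.subtype.toAddMonoidHom Subtype.val_injective
    (fun a m => rfl), map_zero] at h2
  rw [evNum_eq]
  have h3 : (fun s => (cm e0 s).map (S.val : S →+* R)) = cm e := by
    funext x
    rw [← he0]
    ext1 i j
    simp [cm]
  rw [h3] at h2
  exact h2

end Pool.Agent.Y35.KC
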