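import Pool.Agent.W647.K1
import Pool.Agent.Y35.KC.Ev

/-!
# Idempotent matrices over group algebras of fields of characteristic zero and cycles
-/

set_option autoImplicit false
set_option linter.unusedSectionVars false

namespace Pool.Agent.Y35.KC

open Finset Pool.Agent.H23R2 Pool.Agent.H23R2.Ch
open Pool.Agent.W647.K1 (cl cl_iff cl_comm mp sum_classes core)
open Pool.Agent.H26R2.IdemLI (AlmostDiv)

universe u1 u2 u3 u4 u5

section formula

variable {k : Type*} [CommRing k] {G : Type*} [Group G] {M : Type*} [AddCommGroup M] [Module k M]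
  {d : Type*} [Fintype d] [DecidableEq d] {Ω : Type*} [Ring Ω] [Algebra k Ω]
  {𝒜 : ℕ → Submodule k Ω} [GradedAlgebra 𝒜] {δ : Ω →ₗ[k] Ω} {T : Ω →ₗ[k] M} {N : ℕ}
  {ρ : MonoidAlgebra k G →ₐ[k] Ω}

/-- the value on the lifted idempotent -/
theorem tf_lp {n : ℕ} (hn : 1 ≤ n) (h : IsCycle (2 * n) 𝒜 δ T) (hρ : ∀ a, ρ a ∈ 𝒜 0)
    (e : Matrix d d (MonoidAlgebra k G)) (he : e * e = e)
    (hmain : tf (Ph T δ ρ) (lp n (e.map (sec k G))) = 0) :
    (Nat.centralBinom n) • T ((e.map ρ) * ((e.map ρ).map δ) ^ (2 * n)).trace = 0 := by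
  have hE : ∀ i j, (e.map ρ) i j ∈ Ev 𝒜 0 := fun i j => deg_zero_Ev (hρ _)
  set X0 : Matrix d d (MonoidAlgebra k (FreeMonoid G)) := e.map (sec k G) with hX0
  set Y : Matrix d d (MonoidAlgebra k (FreeMonoid G)) := X0 - X0 * X0 with hY
  set t : ℕ → ℕ → M := fun i m => T (wM δ ρ (Y ^ i * X0 ^ m)).trace with ht
  have htf : tf (Ph T δ ρ) (lp n X0) =
      ∑ i ∈ range (n + 1), ((2 * n + 1).choose i) • t i (2 * (n - i) + 1) := by
    have h1 : ∀ Z : Matrix d d (MonoidAlgebra k (FreeMonoid G)),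
        tf (Ph T δ ρ) Z = T (wM δ ρ Z).trace := by
      intro Z
      rw [tf_apply, Matrix.trace, map_sum]
      exact Finset.sum_congr rfl fun i _ => ex_Ph T δ ρ _
    unfold Pool.Agent.H23R2.Ch.lp
    rw [map_sum]
    refine Finset.sum_congr rfl fun i _ => ?_
    rw [map_nsmul, h1]
  have ht0 : ∀ i, t i 0 = 0 := by
    intro i
    simp only [ht]
    rw [pow_zero, hY, hX0, wM_Ypow h hρ e he, wM_one, mul_one]
    by_cases hi : i = n
    · rw [hi]
      exact T_eta hn h hρ e
    · exact T_trace_zero h (m := 2 * i) (by omega) _ (eta_deg h hρ e i)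
  have hw1 : wM δ ρ X0 = e.map ρ := by
    have h1 := wM_mul (δ := δ) (ρ := ρ) e 1
    rw [mul_one, wM_one, mul_one] at h1
    rw [hX0, h1]
    have h2 : (1 : Matrix d d Ω).map δ = 0 := by
      have := eta_closed h hρ e 0
      rwa [pow_zero] at this
    rw [h2, mul_zero, sub_zero]
  have ht1' : ∀ i, t i 1 =
      T (((e.map ρ).map δ * (e.map ρ).map δ) ^ i * e.map ρ).trace := by
    intro i
    simp only [ht]
    rw [pow_one, hY, hX0, wM_Ypow h hρ e he, ← hX0, hw1]
  have ht1 : ∀ i, i < n → t i 1 = 0 := by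
    intro i hi
    rw [ht1']
    refine T_trace_zero h (m := 2 * i + 0) (by omega) _ ?_
    exact mat_mul_deg (eta_deg h hρ e i) (fun i j => hρ (e i j))
  have ht2 : ∀ i m, t i (m + 2) = t i (m + 1) - t (i + 1) m := by
    intro i m
    simp only [ht]
    rw [← map_sub, ← Matrix.trace_sub, ← wM_sub]
    congr 3
    have h1 : X0 ^ (m + 2) = X0 * X0 * X0 ^ m := by
      rw [pow_succ', pow_succ', mul_assoc]
    have h2 : X0 * X0 = X0 - Y := by rw [hY]; abel
    rw [h1, h2, sub_mul, mul_sub, pow_succ' X0 m, pow_succ Y i, mul_assoc]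
  rw [htf, t_sum n t ht2 ht0 ht1, ht1'] at hmain
  rw [T_trace_comm h _ _ (fun i j => ?_) hE] at hmain
  · rwa [← pow_two, ← pow_mul] at hmain
  · exact mem_Ev 0 n (Nat.zero_le n) (eta_deg h hρ e n i j)

/-- integral combinations of the even forms of `G`-degree `g` -/
def SeZ (δ : Ω →ₗ[k] Ω) (ρ : MonoidAlgebra k G →ₐ[k] Ω) (g : G) : AddSubgroup Ω :=
  AddSubgroup.closure {x | ∃ (j : ℕ) (a : G) (l : List G), l.length = 2 * j ∧ a * l.prod = g ∧
    ρ (MonoidAlgebra.single a 1) * pf δ ρ l = x}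

lemma Lop_SeZ (h : IsCycle N 𝒜 δ T) (hρ : ∀ a, ρ a ∈ 𝒜 0) (b g : G) {x : Ω}
    (hx : x ∈ SeZ δ ρ g) : Lop δ (ρ (MonoidAlgebra.single b 1)) x ∈ SeZ δ ρ (b * g) := by
  induction hx using AddSubgroup.closure_induction with
  | mem x hx =>
    obtain ⟨j, a, l, hl, hal, rfl⟩ := hx
    rw [Lop_apply]
    refine AddSubgroup.sub_mem _ ?_ ?_
    · refine AddSubgroup.subset_closure ⟨j, b * a, l, hl, ?_, ?_⟩
      · rw [mul_assoc, hal]
      · rw [← mul_assoc, ← map_mul, MonoidAlgebra.single_mul_single, one_mul]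
    · refine AddSubgroup.subset_closure ⟨j + 1, 1, b :: a :: l, ?_, ?_, ?_⟩
      · simp [hl]
        ring
      · rw [List.prod_cons, List.prod_cons, hal, one_mul]
      · rw [leib h (deg_zero_Ev (hρ _)), delta_pf h hρ, mul_zero, add_zero]
        rw [← MonoidAlgebra.one_def, map_one, one_mul]
        simp [pf]
  | zero =>
    rw [map_zero]
    exact AddSubgroup.zero_mem _
  | add x y _ _ hx hy =>
    rw [map_add]
    exact AddSubgroup.add_mem _ hx hy
  | neg x _ hx =>
    rw [map_neg]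
    exact AddSubgroup.neg_mem _ hx

lemma Wm_SeZ (h : IsCycle N 𝒜 δ T) (hρ : ∀ a, ρ a ∈ 𝒜 0) (w : FreeMonoid G) :
    Wm δ ρ w 1 ∈ SeZ δ ρ (pr G w) := by
  induction w using FreeMonoid.inductionOn' with
  | one =>
    refine AddSubgroup.subset_closure ⟨0, 1, [], rfl, ?_, ?_⟩
    · simp
    · rw [← MonoidAlgebra.one_def, map_one]
      simp [pf]
  | of_mul g w ih =>
    rw [Wm_cons, pr_cons]
    exact Lop_SeZ h hρ g _ ih

lemma T_SeZ {n : ℕ} (h : IsCycle (2 * n) 𝒜 δ T) (hρ : ∀ a, ρ a ∈ 𝒜 0) (g : G)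
    (V : AddSubgroup M) (hg : ∀ (a : G) (l : List G), l.length = 2 * n → a * l.prod = g →
      T (ρ (MonoidAlgebra.single a 1) * pf δ ρ l) ∈ V) {x : Ω} (hx : x ∈ SeZ δ ρ g) : T x ∈ V := by
  induction hx using AddSubgroup.closure_induction with
  | mem x hx =>
    obtain ⟨j, a, l, hl, hal, rfl⟩ := hx
    by_cases hj : j = n
    · subst hj
      exact hg a l hl hal
    · have h1 : T (ρ (MonoidAlgebra.single a 1) * pf δ ρ l) = 0 := by
        refine h.dim (2 * j) (by omega) _ ?_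
        have := mul_mem_deg (hρ (MonoidAlgebra.single a 1)) (pf_deg h hρ l)
        rwa [hl, zero_add] at this
      rw [h1]
      exact V.zero_mem
  | zero =>
    rw [map_zero]
    exact V.zero_mem
  | add x y _ _ hx hy =>
    rw [map_add]
    exact V.add_mem hx hy
  | neg x _ hx =>
    rw [map_neg]
    exact V.neg_mem hx

lemma Ph_mem {n : ℕ} (h : IsCycle (2 * n) 𝒜 δ T) (hρ : ∀ a, ρ a ∈ 𝒜 0) (w : FreeMonoid G)
    (V : AddSubgroup M) (hg : ∀ (a : G) (l : List G), l.length = 2 * n → a * l.prod = pr G w →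
      T (ρ (MonoidAlgebra.single a 1) *
        (l.map fun b => δ (ρ (MonoidAlgebra.single b 1))).prod) ∈ V) : Ph T δ ρ w ∈ V :=
  T_SeZ h hρ (pr G w) V hg (Wm_SeZ h hρ w)

end formula

section field

variable {K : Type u1} [Field K] [CharZero K] {G : Type u2} [Group G]
  {d : Type u3} [Fintype d] [DecidableEq d] {Ω : Type u4} [Ring Ω] [Algebra K Ω]
  {𝒜 : ℕ → Submodule K Ω} [GradedAlgebra 𝒜] {δ : Ω →ₗ[K] Ω} {ρ : MonoidAlgebra K G →ₐ[K] Ω}

/-- scalar valued cycles -/
theorem cyc_scalar {T : Ω →ₗ[K] K} (e : Matrix d d (MonoidAlgebra K G)) (he : e * e = e) {n : ℕ}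
    (hn : 1 ≤ n) (h : IsCycle (2 * n) 𝒜 δ T) (hρ : ∀ a, ρ a ∈ 𝒜 0) (s : Finset K)
    (hval : ∀ (a : G) (l : List G), l.length = 2 * n →
      T (ρ (MonoidAlgebra.single a 1) *
        (l.map fun b => δ (ρ (MonoidAlgebra.single b 1))).prod) ∈ Algebra.adjoin ℤ (s : Set K))
    (hloc : ∀ g : G, g ≠ 1 → AlmostDiv g → ∀ (a : G) (l : List G), l.length = 2 * n →
      a * l.prod = g → T (ρ (MonoidAlgebra.single a 1) *
        (l.map fun b => δ (ρ (MonoidAlgebra.single b 1))).prod) = 0)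
    (hone : {p : ℕ | p.Prime ∧ ∀ x : G, x ^ p = 1 → x = 1}.Infinite ∨
      ∀ (a : G) (l : List G), l.length = 2 * n → a * l.prod = 1 →
        T (ρ (MonoidAlgebra.single a 1) *
          (l.map fun b => δ (ρ (MonoidAlgebra.single b 1))).prod) = 0) :
    T ((e.map ρ) * ((e.map ρ).map δ) ^ (2 * n)).trace = 0 := by
  classical
  have h11 : (1 : Ω) ∈ 𝒜 0 := SetLike.GradedOne.one_mem
  have hPh : ∀ g : G, (∀ (a : G) (l : List G), l.length = 2 * n → a * l.prod = g →
      T (ρ (MonoidAlgebra.single a 1) *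
        (l.map fun b => δ (ρ (MonoidAlgebra.single b 1))).prod) = 0) →
      ∀ w : FreeMonoid G, pr G w = g → Ph T δ ρ w = 0 := by
    intro g hg w hw
    have h1 := Ph_mem h hρ w ⊥ (fun a l hl hal => by
      rw [AddSubgroup.mem_bot]
      exact hg a l hl (hal.trans hw))
    rwa [AddSubgroup.mem_bot] at h1
  have hAll : ∀ g : G, tf (cut (pr G) (cl g) (Ph T δ ρ)) (lp n (e.map (sec K G))) = 0 := by
    intro g
    have hzero : (∀ g' : G, IsConj g' g → ∀ w : FreeMonoid G, pr G w = g' → Ph T δ ρ w = 0) →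
        tf (cut (pr G) (cl g) (Ph T δ ρ)) (lp n (e.map (sec K G))) = 0 := by
      intro h1
      have h2 : cut (pr G) (cl g) (Ph T δ ρ) = fun _ => 0 := by
        funext w
        unfold cut
        split_ifs with h3
        · exact h1 _ ((cl_iff _ _).1 h3) w rfl
        · rfl
      rw [h2, tf_apply]
      refine Finset.sum_eq_zero fun i _ => ?_
      rw [ex_eq_sum]
      exact Finset.sum_eq_zero fun f _ => smul_zero _
    have hcore : (g = 1 ∧ {p : ℕ | p.Prime ∧ ∀ x : G, x ^ p = 1 → x = 1}.Infinite) ∨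
        ¬ AlmostDiv g → tf (cut (pr G) (cl g) (Ph T δ ρ)) (lp n (e.map (sec K G))) = 0 := by
      intro hg
      refine core n (s ∪ coefs e) (Ph T δ ρ) (Ph_comm h hρ) (Ph_kill h hρ) ?_ g ?_ e he ?_
      · intro w
        have h1 := Ph_mem h hρ w
          (Algebra.adjoin ℤ ((s ∪ coefs e : Finset K) : Set K)).toSubring.toAddSubgroup
          (fun a l hl _ => Algebra.adjoin_mono
            (by exact_mod_cast Finset.subset_union_left) (hval a l hl))
        exact h1
      · rcases hg with ⟨h1, h2⟩ | h1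
        · refine Or.inl ⟨h1, ?_, h2⟩
          have h3 : Wm δ ρ (1 : FreeMonoid G) = 1 := map_one _
          unfold Ph
          rw [h3, Module.End.one_apply]
          exact h.dim 0 (by omega) 1 h11
        · exact Or.inr h1
      · intro i j x
        exact coeff_mem e Finset.subset_union_right i j x
    by_cases hg1 : g = 1
    · rcases hone with h1 | h1
      · exact hcore (Or.inl ⟨hg1, h1⟩)
      · apply hzero
        intro g' hg' w hw
        have h2 : g' = 1 := by
          rw [hg1] at hg'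
          exact isConj_one_left.1 hg'
        exact hPh 1 h1 w (hw.trans h2)
    · by_cases hAD : AlmostDiv g
      · apply hzero
        intro g' hg' w hw
        refine hPh g' (hloc g' ?_ ?_) w hw
        · intro h2
          apply hg1
          rw [h2] at hg'
          exact isConj_one_right.1 hg'
        · obtain ⟨m, J, hm, hJ, hAD⟩ := hAD
          refine ⟨m, J, hm, hJ, fun q hq => ?_⟩
          exact hg'.trans ((hAD q hq).trans (hg'.symm.pow _))
      · exact hcore (Or.inr hAD)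
  have hfin := tf_lp hn h hρ e he (sum_classes (pr G) (Ph T δ ρ) _ hAll)
  have h6 : ((Nat.centralBinom n : ℕ) : K) *
      T ((e.map ρ) * ((e.map ρ).map δ) ^ (2 * n)).trace = 0 := by
    rw [← nsmul_eq_mul]
    exact hfin
  rcases mul_eq_zero.1 h6 with h7 | h7
  · exact absurd h7 (by exact_mod_cast Nat.centralBinom_ne_zero n)
  · exact h7

end field

end Pool.Agent.Y35.KC
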