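import Pool.Agent.H290R4.Chern
import Pool.Agent.H290R4.ChernZ
import Pool.Agent.Y35.KC.Cyc

/-!
# Cycles with values in vector spaces, conditions on a subgroup containing the supports
-/

set_option autoImplicit false
set_option linter.unusedSectionVars false

namespace Pool.Agent.Y35.KC

open Finset Pool.Agent.H23R2 Pool.Agent.H23R2.Ch
open Pool.Agent.H26R2.IdemLI (AlmostDiv)

universe u1 u2 u3 u4 u5

variable {K : Type u1} [Field K] [CharZero K] {G : Type u2} [Group G]
  {d : Type u3} [Fintype d] [DecidableEq d] {Ω : Type u4} [Ring Ω] [Algebra K Ω]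
  {𝒜 : ℕ → Submodule K Ω} [GradedAlgebra 𝒜] {δ : Ω →ₗ[K] Ω} {ρ : MonoidAlgebra K G →ₐ[K] Ω}
  {M : Type u5} [AddCommGroup M] [Module K M]

/-- cycles with values in a vector space -/
theorem cyc_module {T : Ω →ₗ[K] M} (e : Matrix d d (MonoidAlgebra K G)) (he : e * e = e) {n : ℕ}
    (hn : 1 ≤ n) (h : IsCycle (2 * n) 𝒜 δ T) (hρ : ∀ a, ρ a ∈ 𝒜 0) (s : Finset K) (F : Finset M)
    (hval : ∀ (a : G) (l : List G), l.length = 2 * n →
      T (ρ (MonoidAlgebra.single a 1) *
        (l.map fun b => δ (ρ (MonoidAlgebra.single b 1))).prod) ∈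
          Submodule.span (Algebra.adjoin ℤ (s : Set K)) (F : Set M))
    (hloc : ∀ g : G, g ≠ 1 → AlmostDiv g → ∀ (a : G) (l : List G), l.length = 2 * n →
      a * l.prod = g → T (ρ (MonoidAlgebra.single a 1) *
        (l.map fun b => δ (ρ (MonoidAlgebra.single b 1))).prod) = 0)
    (hone : {p : ℕ | p.Prime ∧ ∀ x : G, x ^ p = 1 → x = 1}.Infinite ∨
      ∀ (a : G) (l : List G), l.length = 2 * n → a * l.prod = 1 →
        T (ρ (MonoidAlgebra.single a 1) *
          (l.map fun b => δ (ρ (MonoidAlgebra.single b 1))).prod) = 0) :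
    T ((e.map ρ) * ((e.map ρ).map δ) ^ (2 * n)).trace = 0 := by
  classical
  rw [← Module.forall_dual_apply_eq_zero_iff K]
  intro φ
  have h1 := cyc_scalar (T := φ ∘ₗ T) (ρ := ρ) e he hn (Pool.Agent.H290R4.Chern.cycle_comp φ h) hρ
    (s ∪ F.image φ) (fun a l hl => ?_) (fun g hg hAD a l hl hal => ?_) ?_
  · exact h1
  · have h2 : ∀ x ∈ Submodule.span (Algebra.adjoin ℤ (s : Set K)) (F : Set M),
        φ x ∈ Algebra.adjoin ℤ ((s ∪ F.image φ : Finset K) : Set K) := by
      intro x hx
      induction hx using Submodule.span_induction with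
      | mem x hx =>
        apply Algebra.subset_adjoin
        have : φ x ∈ F.image φ := Finset.mem_image_of_mem _ hx
        exact_mod_cast Finset.mem_union_right s this
      | zero =>
        rw [map_zero]
        exact zero_mem _
      | add x y _ _ hx hy =>
        rw [map_add]
        exact add_mem hx hy
      | smul a x _ hx =>
        have h3 : φ (a • x) = (a : K) * φ x := by
          show φ ((a : K) • x) = _
          rw [map_smul, smul_eq_mul]
        rw [h3]
        exact mul_mem (Algebra.adjoin_mono (by exact_mod_cast Finset.subset_union_left) a.2) hx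
    exact h2 _ (hval a l hl)
  · rw [LinearMap.comp_apply, hloc g hg hAD a l hl hal, map_zero]
  · rcases hone with h2 | h2
    · exact Or.inl h2
    · refine Or.inr fun a l hl hal => ?_
      rw [LinearMap.comp_apply, h2 a l hl hal, map_zero]

/-- all conditions only on a subgroup containing the supports -/
theorem cyc_field {T : Ω →ₗ[K] M} (e : Matrix d d (MonoidAlgebra K G)) (he : e * e = e)
    (H : Subgroup G) (hH : ∀ i j g, (e i j).coeff g ≠ 0 → g ∈ H) {n : ℕ}
    (hn : 1 ≤ n) (h : IsCycle (2 * n) 𝒜 δ T) (hρ : ∀ a, ρ a ∈ 𝒜 0) (s : Finset K) (F : Finset M)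
    (hval : ∀ (a : G) (l : List G), a ∈ H → (∀ b ∈ l, b ∈ H) → l.length = 2 * n →
      T (ρ (MonoidAlgebra.single a 1) *
        (l.map fun b => δ (ρ (MonoidAlgebra.single b 1))).prod) ∈
          Submodule.span (Algebra.adjoin ℤ (s : Set K)) (F : Set M))
    (hloc : ∀ g : H, g ≠ 1 → AlmostDiv g → ∀ (a : G) (l : List G), a ∈ H → (∀ b ∈ l, b ∈ H) →
      l.length = 2 * n → a * l.prod = g → T (ρ (MonoidAlgebra.single a 1) *
        (l.map fun b => δ (ρ (MonoidAlgebra.single b 1))).prod) = 0)
    (hone : {p : ℕ | p.Prime ∧ ∀ x ∈ H, x ^ p = 1 → x = 1}.Infinite ∨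
      ∀ (a : G) (l : List G), a ∈ H → (∀ b ∈ l, b ∈ H) → l.length = 2 * n → a * l.prod = 1 →
        T (ρ (MonoidAlgebra.single a 1) *
          (l.map fun b => δ (ρ (MonoidAlgebra.single b 1))).prod) = 0) :
    T ((e.map ρ) * ((e.map ρ).map δ) ^ (2 * n)).trace = 0 := by
  classical
  let j : MonoidAlgebra K H →ₐ[K] MonoidAlgebra K G :=
    MonoidAlgebra.mapDomainAlgHom K K H.subtype
  have hj : Function.Injective j := MonoidAlgebra.mapDomain_injective H.subtype_injective
  let res : Matrix d d (MonoidAlgebra K H) :=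
    Matrix.of fun a b => MonoidAlgebra.comapDomain H.subtype H.subtype_injective (e a b)
  have hres : res.map j = e := by
    ext1 a b
    exact Pool.Agent.H290R4.ChernZ.restrict_eq H _ (fun g hg => hH a b g hg)
  have hidem : res * res = res := by
    have h4 : (res * res).map j = res.map j := by
      rw [Matrix.map_mul, hres, he]
    ext1 a b
    apply hj
    exact congrFun (congrFun h4 a) b
  have h3 : ∀ x : H, (ρ.comp j) (MonoidAlgebra.single x 1) =
      ρ (MonoidAlgebra.single x.1 1) := by
    intro x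
    simp [j]
  have h6 : ∀ l : List H, (l.map fun b => δ ((ρ.comp j) (MonoidAlgebra.single b 1))) =
      (l.map Subtype.val).map (fun b => δ (ρ (MonoidAlgebra.single b 1))) := by
    intro l
    rw [List.map_map]
    refine List.map_congr_left fun b _ => ?_
    rw [h3]
    rfl
  have hmem : ∀ l : List H, ∀ b ∈ l.map Subtype.val, b ∈ H := by
    intro l b hb
    obtain ⟨b', _, rfl⟩ := List.mem_map.1 hb
    exact b'.2
  have hprod : ∀ (a : H) (l : List H), (a : G) * (l.map Subtype.val).prod = ((a * l.prod : H) : G) := by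
    intro a l
    push_cast
    rfl
  have key := cyc_module (G := H) (ρ := ρ.comp j) (T := T) res hidem hn h (fun a => hρ _) s F
    (fun a l hl => by
      rw [h3, h6]
      exact hval a.1 _ a.2 (hmem l) (by simpa using hl))
    (fun g hg hAD a l hl hal => by
      rw [h3, h6]
      exact hloc g hg hAD a.1 _ a.2 (hmem l) (by simpa using hl) (by rw [hprod, hal]))
    (by
      rcases hone with h7 | h7
      · refine Or.inl (h7.mono ?_)
        rintro p ⟨hp, hx⟩
        refine ⟨hp, fun x hxp => Subtype.ext (hx x.1 x.2 ?_)⟩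
        have := congrArg Subtype.val hxp
        simpa using this
      · refine Or.inr fun a l hl hal => ?_
        rw [h3, h6]
        exact h7 a.1 _ a.2 (hmem l) (by simpa using hl) (by rw [hprod, hal]; rfl))
  have h2 : res.map (ρ.comp j) = e.map ρ := by
    conv_rhs => rw [← hres]
    ext1 a b
    simp
  rw [h2] at key
  exact key

end Pool.Agent.Y35.KC
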