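import Pool.Agent.TH57.TT2.Red
import Pool.Agent.TH6.CX.Fin

set_option autoImplicit false
set_option linter.style.haveILetI false
set_option linter.unusedSectionVars false
set_option linter.unusedVariables false

/-! Contractible complexes over `ℤΓ` whose boundary matrix has, in each degree, rows or columns of
`ℓ¹` norm at most two. -/

namespace Pool.Agent.Y35.KC.TTm

open Matrix TH57.Thr TH6.CX TH57.TT2

variable {Γ : Type} [Group Γ]

/-- the sum of the absolute values of the coefficients -/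
def l1 (x : MonoidAlgebra ℤ Γ) : ℕ := ∑ g ∈ x.coeff.support, (x.coeff g).natAbs

theorem l1_eq (x : MonoidAlgebra ℤ Γ) (T : Finset Γ) (h : x.coeff.support ⊆ T) :
    l1 x = ∑ g ∈ T, (x.coeff g).natAbs :=
  Finset.sum_subset h fun g _ hg => by rw [Finsupp.notMem_support_iff.1 hg]; rfl

theorem l1_zero_iff (x : MonoidAlgebra ℤ Γ) : l1 x = 0 ↔ x = 0 := by
  constructor
  · intro h
    ext g
    by_cases hg : g ∈ x.coeff.support
    · have := (Finset.sum_eq_zero_iff.1 h) g hg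
      simpa using this
    · simpa using Finsupp.notMem_support_iff.1 hg
  · rintro rfl
    simp [l1]

theorem sign_dec (n : ℤ) (hn : n ≠ 0) :
    ∃ ε : ℤˣ, (n - ε).natAbs + 1 = n.natAbs := by
  rcases lt_or_gt_of_ne hn with h | h
  · exact ⟨-1, by push_cast; omega⟩
  · exact ⟨1, by push_cast; omega⟩

/-- removing one unit of a coefficient -/
theorem l1_dec (x : MonoidAlgebra ℤ Γ) (hx : x ≠ 0) :
    ∃ (g : Γ) (ε : ℤˣ), l1 (x - MonoidAlgebra.single g (ε : ℤ)) + 1 = l1 x := by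
  classical
  obtain ⟨g, hg⟩ : ∃ g, x.coeff g ≠ 0 := by
    by_contra h
    push Not at h
    apply hx
    ext g
    simpa using h g
  obtain ⟨ε, hε⟩ := sign_dec _ hg
  refine ⟨g, ε, ?_⟩
  have hsub : (x - MonoidAlgebra.single g (ε : ℤ)).coeff.support ⊆ x.coeff.support := by
    intro h hh
    rw [Finsupp.mem_support_iff] at hh ⊢
    by_cases hgh : h = g
    · rw [hgh]; exact hg
    · intro h0
      apply hh
      rw [MonoidAlgebra.coeff_sub, Finsupp.sub_apply, h0, MonoidAlgebra.coeff_single,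
        Finsupp.single_eq_of_ne hgh, sub_zero]
  rw [l1_eq _ _ hsub, l1]
  have hgm : g ∈ x.coeff.support := Finsupp.mem_support_iff.2 hg
  rw [← Finset.add_sum_erase _ _ hgm, ← Finset.add_sum_erase x.coeff.support _ hgm]
  have h1 : ∑ y ∈ x.coeff.support.erase g,
      ((x - MonoidAlgebra.single g (ε : ℤ)).coeff y).natAbs
      = ∑ y ∈ x.coeff.support.erase g, (x.coeff y).natAbs := by
    apply Finset.sum_congr rfl
    intro y hy
    rw [MonoidAlgebra.coeff_sub, Finsupp.sub_apply, MonoidAlgebra.coeff_single,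
      Finsupp.single_eq_of_ne (Finset.ne_of_mem_erase hy), sub_zero]
  have h2 : ((x - MonoidAlgebra.single g (ε : ℤ)).coeff g).natAbs + 1 = (x.coeff g).natAbs := by
    rw [MonoidAlgebra.coeff_sub, Finsupp.sub_apply, MonoidAlgebra.coeff_single,
      Finsupp.single_eq_same]
    exact hε
  rw [h1]
  omega

variable {ι : Type} [Fintype ι] [DecidableEq ι]

/-- the unit `± g` -/
noncomputable def tu (g : Γ) (ε : ℤˣ) : (MonoidAlgebra ℤ Γ)ˣ where
  val := MonoidAlgebra.single g (ε : ℤ)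
  inv := MonoidAlgebra.single g⁻¹ ((ε⁻¹ : ℤˣ) : ℤ)
  val_inv := by
    rw [MonoidAlgebra.single_mul_single, mul_inv_cancel, MonoidAlgebra.one_def]
    congr 1
    exact ε.mul_inv
  inv_val := by
    rw [MonoidAlgebra.single_mul_single, inv_mul_cancel, MonoidAlgebra.one_def]
    congr 1
    exact ε.inv_mul

theorem tu_mem (g : Γ) (ε : ℤˣ) : tu g ε ∈ TU Γ := ⟨g, ε, rfl⟩

theorem row_dec (r : ι → MonoidAlgebra ℤ Γ) (hr : r ≠ 0) :
    ∃ (c : ι) (g : Γ) (ε : ℤˣ),
      ∑ j, l1 ((r - Pi.single c (MonoidAlgebra.single g (ε : ℤ)) : ι → MonoidAlgebra ℤ Γ) j) + 1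
        = ∑ j, l1 (r j) := by
  obtain ⟨c, hc⟩ : ∃ c, r c ≠ 0 := by
    by_contra h
    push Not at h
    exact hr (funext h)
  obtain ⟨g, ε, h⟩ := l1_dec (r c) hc
  refine ⟨c, g, ε, ?_⟩
  rw [← Finset.add_sum_erase _ _ (Finset.mem_univ c),
    ← Finset.add_sum_erase _ (fun j => l1 (r j)) (Finset.mem_univ c)]
  have h1 : ∑ y ∈ Finset.univ.erase c,
      l1 ((r - Pi.single c (MonoidAlgebra.single g (ε : ℤ)) : ι → MonoidAlgebra ℤ Γ) y)
      = ∑ y ∈ Finset.univ.erase c, l1 (r y) := by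
    apply Finset.sum_congr rfl
    intro y hy
    rw [Pi.sub_apply, Pi.single_eq_of_ne (Finset.ne_of_mem_erase hy), sub_zero]
  rw [h1, Pi.sub_apply, Pi.single_eq_same]
  omega

theorem eq_zero_of_sum (r : ι → MonoidAlgebra ℤ Γ) (h : ∑ j, l1 (r j) = 0) : r = 0 := by
  funext j
  have := (Finset.sum_eq_zero_iff.1 h) j (Finset.mem_univ j)
  exact (l1_zero_iff _).1 this

theorem uz_tu (g : Γ) (ε : ℤˣ) : UZ (TU Γ) (MonoidAlgebra.single g (ε : ℤ)) :=
  Or.inr ⟨tu g ε, tu_mem g ε, rfl⟩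

theorem two_of_l1 [Nonempty ι] (r : ι → MonoidAlgebra ℤ Γ) (h : ∑ j, l1 (r j) ≤ 2) :
    Two (TU Γ) r := by
  by_cases h0 : r = 0
  · obtain ⟨c⟩ := ‹Nonempty ι›
    exact ⟨c, c, 0, 0, UZ.zero, UZ.zero, by rw [h0]; simp⟩
  · obtain ⟨c, g, ε, h1⟩ := row_dec r h0
    set r1 : ι → MonoidAlgebra ℤ Γ := r - Pi.single c (MonoidAlgebra.single g (ε : ℤ)) with hr1
    by_cases h2 : r1 = 0
    · refine ⟨c, c, _, 0, uz_tu g ε, UZ.zero, ?_⟩
      rw [Pi.single_zero, add_zero]
      exact sub_eq_zero.1 (hr1.symm.trans h2)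
    · obtain ⟨c', g', ε', h3⟩ := row_dec r1 h2
      have h4 := eq_zero_of_sum _ (by omega :
        ∑ j, l1 ((r1 - Pi.single c' (MonoidAlgebra.single g' (ε' : ℤ)) :
          ι → MonoidAlgebra ℤ Γ) j) = 0)
      refine ⟨c, c', _, _, uz_tu g ε, uz_tu g' ε', ?_⟩
      have h5 := sub_eq_zero.1 h4
      rw [← h5, hr1]
      abel

/-- in every degree `k` all the rows of the boundary matrix (the boundaries of the basis elements of
degree `k`) have `ℓ¹` norm at most two, or all its columns indexed by the basis elements of degree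
`k - 1` have `ℓ¹` norm at most two -/
def TwoTerm (deg : ι → ℤ) (d : Matrix ι ι (MonoidAlgebra ℤ Γ)) : Prop :=
  ∀ k : ℤ, (∀ i, deg i = k → ∑ j, l1 (d i j) ≤ 2) ∨ (∀ j, deg j = k - 1 → ∑ i, l1 (d i j) ≤ 2)

/-- the same condition for a map `t` of degree `+1` -/
def TwoTermUp (deg : ι → ℤ) (t : Matrix ι ι (MonoidAlgebra ℤ Γ)) : Prop :=
  ∀ k : ℤ, (∀ i, deg i = k → ∑ j, l1 (t i j) ≤ 2) ∨ (∀ j, deg j = k + 1 → ∑ i, l1 (t i j) ≤ 2)

theorem sp_of_two (deg : ι → ℤ) (d : Matrix ι ι (MonoidAlgebra ℤ Γ)) (h : TwoTerm deg d) :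
    Sp (TU Γ) deg d id := by
  intro l
  rcases h l with h | h
  · left
    intro i _ hi
    haveI : Nonempty ι := ⟨i⟩
    exact two_of_l1 _ (h i hi)
  · right
    intro j _ hj
    haveI : Nonempty ι := ⟨j⟩
    exact two_of_l1 _ (h j hj)

/-- the augmentation modulo two -/
noncomputable def aug2 : MonoidAlgebra ℤ Γ →+* ZMod 2 :=
  (MonoidAlgebra.lift ℤ (ZMod 2) Γ (1 : Γ →* ZMod 2)).toRingHom

theorem neg_mem : (-1 : (MonoidAlgebra ℤ Γ)ˣ) ∈ TU Γ :=
  ⟨1, -1, by simp [MonoidAlgebra.one_def]⟩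

theorem TT_two (deg : ι → ℤ) (d s : Matrix ι ι (MonoidAlgebra ℤ Γ)) (hd : IsBd deg d)
    (hs : IsCt deg d s) (h : TwoTerm deg d) (e : Ob deg ≃ Eb deg)
    (x : (Matrix (Ob deg) (Ob deg) (MonoidAlgebra ℤ Γ))ˣ)
    (hx : (x : Matrix (Ob deg) (Ob deg) (MonoidAlgebra ℤ Γ)) = (tor deg d s).submatrix id e) :
    TT (TU Γ) x :=
  TT_sparse neg_mem aug2 hd hs (sp_of_two deg d h) e x hx

theorem TT_two_up (deg : ι → ℤ) (d s : Matrix ι ι (MonoidAlgebra ℤ Γ)) (hd : IsBd deg d)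
    (hs : IsCt deg d s) (hss : s * s = 0) (h : TwoTermUp deg s) (e : Ob deg ≃ Eb deg)
    (x : (Matrix (Ob deg) (Ob deg) (MonoidAlgebra ℤ Γ))ˣ)
    (hx : (x : Matrix (Ob deg) (Ob deg) (MonoidAlgebra ℤ Γ)) = (tor deg d s).submatrix id e) :
    TT (TU Γ) x := by
  classical
  let deg' : ι → ℤ := fun i => -deg i
  have hd' : IsBd deg' s := ⟨fun i j h => by
    have := hs.degree i j h
    change -deg i = -deg j + 1
    omega, hss⟩
  have hs' : IsCt deg' s d := ⟨fun i j h => by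
    have := hd.degree i j h
    change -deg j = -deg i + 1
    omega, by rw [add_comm]; exact hs.eq⟩
  have h' : TwoTerm deg' s := by
    intro k
    rcases h (-k) with h | h
    · left
      intro i hi
      exact h i (by change -deg i = k at hi; omega)
    · right
      intro j hj
      exact h j (by change -deg j = k - 1 at hj; omega)
  let eo : Ob deg' ≃ Ob deg := Equiv.subtypeEquivRight (fun i => by
    change Odd (-deg i) ↔ Odd (deg i)
    exact odd_neg)
  let ee : Eb deg' ≃ Eb deg := Equiv.subtypeEquivRight (fun i => by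
    change Even (-deg i) ↔ Even (deg i)
    exact even_neg)
  let e' : Ob deg' ≃ Eb deg' := (eo.trans e).trans ee.symm
  have h1 : TT (TU Γ) (Units.map (re (R := MonoidAlgebra ℤ Γ) eo) x) := by
    apply TT_two deg' s d hd' hs' h' e'
    ext1 i j
    change (x : Matrix (Ob deg) (Ob deg) (MonoidAlgebra ℤ Γ)) (eo i) (eo j) = _
    rw [hx]
    change (d + s) (eo i).1 (e (eo j)).1 = (s + d) i.1 (e' j).1
    rw [add_comm d s]
    rfl
  have h2 := TT_re (TU Γ) eo.symm _ h1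
  have h3 : x = Units.map (re (R := MonoidAlgebra ℤ Γ) eo.symm)
      (Units.map (re (R := MonoidAlgebra ℤ Γ) eo) x) := by
    apply Units.ext
    ext1 i j
    change _ = (x : Matrix (Ob deg) (Ob deg) (MonoidAlgebra ℤ Γ)) (eo (eo.symm i)) (eo (eo.symm j))
    rw [Equiv.apply_symm_apply, Equiv.apply_symm_apply]
  rw [h3]
  exact h2

end Pool.Agent.Y35.KC.TTm
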